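import Pool.Agent.N641.VB.Stm

/-!
# VB/ISO: types with finitely many divisors are isolated
-/

set_option autoImplicit false

namespace Pool.Agent.N849.VB

open Pool.Agent.N641.VB

variable {M : Type} [AddCommMonoid M]

/-- the types below an element are divisors of its type -/
theorem mem_Dv {A : Type} [BooleanAlgebra A] {mu : A → M} (hm : AM mu) {a c : A} (hc : c ≤ a) :
    ft mu c ∈ Dv (ft mu a) := by
  refine ⟨⟨A, inferInstance, mu, c, hm, rfl⟩, ft mu (a \ c),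
    ⟨A, inferInstance, mu, a \ c, hm, rfl⟩, ?_⟩
  rw [← ft_sup hm c (a \ c) disjoint_sdiff_self_right, sup_sdiff_cancel_right hc]

/-- realised types that agree at a level agree below it -/
theorem Rl_mono {u v : FT M} (hu : Rl u) (hv : Rl v) {j k : ℕ} (hjk : j ≤ k) (h : u k = v k) :
    u j = v j := by
  obtain ⟨A, _, mu, a, _, rfl⟩ := hu
  obtain ⟨B, _, nu, b, _, rfl⟩ := hv
  exact tp_mono hjk h

/-- finitely many types are separated at some level -/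
theorem exists_level {S : Set (FT M)} (hS : S.Finite) (hR : ∀ u ∈ S, Rl u) :
    ∃ k : ℕ, ∀ u ∈ S, ∀ v ∈ S, u k = v k → u = v := by
  classical
  have h1 : ∀ q : FT M × FT M, ∃ j : ℕ, q.1 ≠ q.2 → q.1 j ≠ q.2 j := by
    intro q
    by_cases h : q.1 = q.2
    · exact ⟨0, fun h' => absurd h h'⟩
    · obtain ⟨j, hj⟩ := Function.ne_iff.1 h
      exact ⟨j, fun _ => hj⟩
  choose lev hlev using h1
  refine ⟨(hS.toFinset ×ˢ hS.toFinset).sup lev, ?_⟩
  intro u hu v hv h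
  by_contra hne
  apply hlev (u, v) hne
  refine Rl_mono (hR u hu) (hR v hv) ?_ h
  exact Finset.le_sup (f := lev) (b := (u, v))
    (Finset.mem_product.2 ⟨hS.mem_toFinset.2 hu, hS.mem_toFinset.2 hv⟩)

section

variable {A A' : Type} [BooleanAlgebra A] [BooleanAlgebra A'] {mu : A → M} {mu' : A' → M}
  {a : A} {a' : A'}

/-- the step of the level -/
theorem stepL (hm' : AM mu') {k₀ : ℕ}
    (hk : ∀ u ∈ Dv (ft mu' a'), ∀ v ∈ Dv (ft mu' a'), u k₀ = v k₀ → u = v)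
    (ha : tp mu (k₀ + 2) a = tp mu' (k₀ + 2) a') {c : A} {c' : A'} (hc : c ≤ a) (hc' : c' ≤ a')
    (h : tp mu k₀ c = tp mu' k₀ c') : tp mu (k₀ + 1) c = tp mu' (k₀ + 1) c' := by
  have h3 : ((tp mu (k₀ + 1) c, tp mu (k₀ + 1) (a \ c)) : TP M (k₀ + 1) × TP M (k₀ + 1)) ∈
      (tp mu (k₀ + 2) a).2 := ⟨c, hc, rfl⟩
  rw [ha] at h3
  obtain ⟨c'', hc'', h4⟩ := h3
  have h5 : tp mu (k₀ + 1) c = tp mu' (k₀ + 1) c'' := congrArg Prod.fst h4
  have h6 : tp mu k₀ c = tp mu' k₀ c'' := tp_dn k₀ _ _ h5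
  have h7 : ft mu' c' = ft mu' c'' := by
    apply hk _ (mem_Dv hm' hc') _ (mem_Dv hm' hc'')
    exact h.symm.trans h6
  rw [h5]
  exact (congrFun h7 (k₀ + 1)).symm

/-- the main claim -/
theorem claim (hm' : AM mu') {k₀ : ℕ}
    (hk : ∀ u ∈ Dv (ft mu' a'), ∀ v ∈ Dv (ft mu' a'), u k₀ = v k₀ → u = v)
    (ha : tp mu (k₀ + 2) a = tp mu' (k₀ + 2) a') :
    ∀ (k : ℕ) (b : A) (b' : A'), b ≤ a → b' ≤ a' → tp mu (k₀ + 1) b = tp mu' (k₀ + 1) b' →
      tp mu k b = tp mu' k b'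
  | 0, b, b', _, _, h => tp_mono (Nat.zero_le _) h
  | k + 1, b, b', hb, hb', h => by
    have h1 : mu b = mu' b' := congrArg Prod.fst h
    refine Prod.ext h1 (Set.ext fun q => ⟨?_, ?_⟩)
    · rintro ⟨c, hc, rfl⟩
      have h3 : ((tp mu k₀ c, tp mu k₀ (b \ c)) : TP M k₀ × TP M k₀) ∈
        (tp mu (k₀ + 1) b).2 := ⟨c, hc, rfl⟩
      rw [h] at h3
      obtain ⟨c', hc', h4⟩ := h3
      have h5 : tp mu k₀ c = tp mu' k₀ c' := congrArg Prod.fst h4
      have h6 : tp mu k₀ (b \ c) = tp mu' k₀ (b' \ c') := congrArg Prod.snd h4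
      refine ⟨c', hc', Prod.ext ?_ ?_⟩
      · exact claim hm' hk ha k c c' (hc.trans hb) (hc'.trans hb')
          (stepL hm' hk ha (hc.trans hb) (hc'.trans hb') h5)
      · exact claim hm' hk ha k (b \ c) (b' \ c') (sdiff_le.trans hb) (sdiff_le.trans hb')
          (stepL hm' hk ha (sdiff_le.trans hb) (sdiff_le.trans hb') h6)
    · rintro ⟨c', hc', rfl⟩
      have h3 : ((tp mu' k₀ c', tp mu' k₀ (b' \ c')) : TP M k₀ × TP M k₀) ∈
        (tp mu' (k₀ + 1) b').2 := ⟨c', hc', rfl⟩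
      rw [← h] at h3
      obtain ⟨c, hc, h4⟩ := h3
      have h5 : tp mu' k₀ c' = tp mu k₀ c := congrArg Prod.fst h4
      have h6 : tp mu' k₀ (b' \ c') = tp mu k₀ (b \ c) := congrArg Prod.snd h4
      refine ⟨c, hc, Prod.ext ?_ ?_⟩
      · exact (claim hm' hk ha k c c' (hc.trans hb) (hc'.trans hb')
          (stepL hm' hk ha (hc.trans hb) (hc'.trans hb') h5.symm)).symm
      · exact (claim hm' hk ha k (b \ c) (b' \ c') (sdiff_le.trans hb) (sdiff_le.trans hb')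
          (stepL hm' hk ha (sdiff_le.trans hb) (sdiff_le.trans hb') h6.symm)).symm

end

theorem ISO : Pool.Agent.N641.VB.S_ISO := by
  intro M _ _ t ht hD
  obtain ⟨A', _, mu', a', hm', rfl⟩ := ht
  obtain ⟨k₀, hk⟩ := exists_level hD (fun u hu => hu.1)
  refine ⟨k₀ + 2, ?_⟩
  rintro s ⟨A, _, mu, a, hm, rfl⟩ hs
  funext k
  exact claim hm' hk (hs (k₀ + 2) le_rfl) k a a' le_rfl le_rfl (hs (k₀ + 1) (by omega))

end Pool.Agent.N849.VB
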